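import Pool.Agent.Helper42_CG.Stmt
import Pool.Agent.Helper13_Conc.Linked

/-! Squad CGP, module CSET: the number of connected sets (from `linked_count` of helper13). -/

set_option autoImplicit false

namespace Pool.Agent.CGP.H11

open SimpleGraph Pool.Agent.LAG Pool.Agent.LLG Pool.Agent.CGP

/-- CSET -/
theorem cset : CsetStmt := by
  classical
  intro W _ _ Γ k n v hk hn hdeg
  have h1 : Nat.card {K : Finset W // v ∈ K ∧ K.card = n ∧ (Γ.induce (K : Set W)).Connected} =
      (Finset.univ.filter fun K : Finset W => v ∈ K ∧ K.card = n ∧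
        (Γ.induce (K : Set W)).Connected).card := by
    rw [Nat.card_eq_fintype_card, Fintype.card_subtype]
  rw [h1]
  have h2 := Pool.Agent.Helper13_Conc.linked_count Γ (fun x => (Γ.neighborSet x).toFinset)
    (d := k) (fun x y h => by simpa using h) (fun x => by
      have := hdeg x
      rwa [Set.ncard_eq_toFinset_card'] at this) (n - 1) v
    (Finset.univ.filter fun K : Finset W => v ∈ K ∧ K.card = n ∧
        (Γ.induce (K : Set W)).Connected) (by
      intro S hS
      obtain ⟨-, ha, hb, hc⟩ := Finset.mem_filter.1 hS
      exact ⟨ha, by omega, hc.preconnected⟩)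
  exact h2.trans (Nat.pow_le_pow_right hk (by omega))

end Pool.Agent.CGP.H11
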