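import Pool.Agent.Helper9_CG.Stmt
import Pool.Agent.Helper27_LLG.Moo

/-!
# Squad CG, module MOOG: the Moore bound in the double cover (general d)
-/

set_option autoImplicit false

namespace Pool.Agent.CG.H11

open SimpleGraph Pool.Agent.LAG Pool.Agent.LLG Pool.Agent.CG Finset

open Classical in
/-- A dense set contains a nonempty subset of large minimum degree. -/
theorem coreg {W : Type} (Γ : SimpleGraph W) (d : ℕ) (K : Finset W)
    (hK : 2 * d * K.card < ((K ×ˢ K).filter fun e => Γ.Adj e.1 e.2).card) :
    ∃ L : Finset W, L ⊆ K ∧ L.Nonempty ∧ ∀ v ∈ L, d + 1 ≤ (L.filter fun w => Γ.Adj v w).card := by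
  induction hn : K.card using Nat.strong_induction_on generalizing K with
  | _ n ih =>
    by_cases h : ∀ v ∈ K, d + 1 ≤ (K.filter fun w => Γ.Adj v w).card
    · refine ⟨K, Subset.rfl, ?_, h⟩
      rw [nonempty_iff_ne_empty]
      rintro rfl
      simp at hK
    · push Not at h
      obtain ⟨v, hv, h1⟩ := h
      have h2 := H27.ins_erase Γ K v
      have h3 := card_erase_of_mem hv
      have h4 : 0 < K.card := card_pos.2 ⟨v, hv⟩
      have h5 : 2 * d * (K.erase v).card + 2 * d = 2 * d * K.card := by
        rw [h3]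
        obtain ⟨c, hc⟩ : ∃ c, K.card = c + 1 := ⟨K.card - 1, by omega⟩
        rw [hc, Nat.add_sub_cancel]
        ring
      obtain ⟨L, hL1, hL2, hL3⟩ := ih (K.erase v).card (by omega) (K.erase v) (by omega) rfl
      exact ⟨L, hL1.trans (erase_subset _ _), hL2, hL3⟩

theorem moog : MoogStmt := by
  classical
  intro V _ R O d h h1 h2 hB hd hh K hK
  by_contra hcon
  push Not at hcon
  set K' : Finset (V ⊕ V) := K.toFinset with hK'
  have hcard : K.ncard = K'.card := Set.ncard_eq_toFinset_card' K
  have hins : ins (dbl O) K = ((K' ×ˢ K').filter fun e => (dbl O).Adj e.1 e.2).card := by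
    rw [ins, Set.ncard_eq_toFinset_card']
    congr 1
    ext e
    simp only [Set.mem_toFinset, Set.mem_ofPred_eq, mem_filter, mem_product, hK']
    tauto
  rw [hins, hcard] at hcon
  obtain ⟨L, hL1, ⟨v, hv⟩, hL3⟩ := coreg (dbl O) d K' hcon
  have hb := H27.big_dbl R O (2 * h) h1 h2 hB
  have hb' : Big ((dbl O).induce (L : Set (V ⊕ V))) (2 * h) := by
    intro u c hc
    let f : (dbl O).induce (L : Set (V ⊕ V)) →g dbl O := ⟨Subtype.val, fun {a b} h => h⟩
    have h3 : (c.map f).IsCycle := (Walk.isCycle_map_iff_of_injective Subtype.val_injective).2 hc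
    have h4 := hb _ _ h3
    rwa [Walk.length_map] at h4
  have h3 := H27.moore ((dbl O).induce (L : Set (V ⊕ V))) d h hb' (by
    intro u
    refine (hL3 u.1 u.2).trans ?_
    rw [← Set.ncard_coe_finset]
    have h5 : ((L.filter fun w => (dbl O).Adj u.1 w : Finset (V ⊕ V)) : Set (V ⊕ V)) =
        Subtype.val '' (((dbl O).induce (L : Set (V ⊕ V))).neighborSet u) := by
      ext w
      simp only [coe_filter, Set.mem_ofPred_eq, Set.mem_image, mem_neighborSet, comap_adj,
        Function.Embedding.subtype_apply, Subtype.exists, exists_and_right, exists_eq_right]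
      constructor
      · rintro ⟨h6, h7⟩
        exact ⟨by simpa using h6, h7⟩
      · rintro ⟨h6, h7⟩
        exact ⟨by simpa using h6, h7⟩
    rw [h5]
    exact Set.ncard_image_le (Set.toFinite _)) ⟨v, by simpa using hv⟩
  have h4 : Fintype.card (L : Set (V ⊕ V)) = L.card := by simp
  have h5 := card_le_card hL1
  omega

end Pool.Agent.CG.H11
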